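import Pool.Agent.H71.CR.Stmt

/-!
# Module SP2 of board cwr_modules (MP_5607ba_lc): pairs of tuples which are not joined by edges
-/

set_option autoImplicit false

open Set Pool.Agent.TK Pool.Agent.H71.VK

namespace Pool.Agent.CR

private lemma zip_fs : ∀ s : List (ℕ × ℕ), (s.map Prod.fst).zip (s.map Prod.snd) = s
  | [] => rfl
  | a :: s => by
    rw [List.map_cons, List.map_cons, List.zip_cons_cons, zip_fs s]

theorem pf_SP2 (hFRE : T_FRE) (hTIA : T_TIA) (hTIB : T_TIB) : T_SP2 := by
  classical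
  intro n c Sm G π B hB x1 x2 y1 y2 hl1 hl2 hx1 hx2 hy1 hy2 hex hey hp1 hp2 s hs
  by_cases hlen : n.2 < s.length
  · rw [G.lb.ar _ (by rwa [List.length_map]), G.lb.ar _ (by rwa [List.length_map])]
  obtain ⟨h1, h2, h3, h4⟩ := hTIB n c Sm G π B hB
  -- type independence of pairs which are not joined
  have key : ∀ u1 u2 w1 w2 : List ℕ, G.Mb π B u1 → G.Mb π B u2 →
      (∀ e : List ℕ, G.Eg π B e → (∃ a ∈ e, a ∈ u1) → ∀ a ∈ e, a ∉ u2) → (∀ a ∈ w1, a ∈ u1) →
      (∀ a ∈ w2, a ∈ u2) → w1.length + w2.length ≤ n.2 → G.TI π B w1 w2 := by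
    intro u1 u2 w1 w2 hu1 hu2 he hw1 hw2 hl
    refine h2 _ _ (hTIA n c Sm G π B hB w2 w1 (by omega)
      ⟨B, fun a ha => ha, fun a ha => hu2 a (hw2 a ha)⟩ ?_)
    by_contra hcon
    obtain ⟨e, h5, -, ⟨a, h7, h8⟩, b, h9, h10⟩ := hFRE n c Sm G π B hB w1 w2 hl
      (fun a ha => hu1 a (hw1 a ha)) (fun a ha => (hu2 a (hw2 a ha)).1) hcon
    exact he e h5 ⟨a, h7, hw1 a h8⟩ b h9 (hw2 b h10)
  let s1 := s.filter fun z => decide (z ∈ x1.zip y1)
  let s2 := s.filter fun z => decide (¬ z ∈ x1.zip y1 ∧ z ∈ x2.zip y2)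
  have hs1 : ∀ z ∈ s1, z ∈ x1.zip y1 := fun z hz => of_decide_eq_true (List.mem_filter.1 hz).2
  have hs2 : ∀ z ∈ s2, z ∈ x2.zip y2 := fun z hz =>
    (of_decide_eq_true (List.mem_filter.1 hz).2 : ¬ z ∈ x1.zip y1 ∧ z ∈ x2.zip y2).2
  have hsl : s1.length + s2.length ≤ s.length := by
    have h5 : ∀ t : List (ℕ × ℕ), (t.filter fun z => decide (z ∈ x1.zip y1)).length +
        (t.filter fun z => decide (¬ z ∈ x1.zip y1 ∧ z ∈ x2.zip y2)).length ≤ t.length := by
      intro t
      induction t with
      | nil => simp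
      | cons a t ih =>
        rw [List.filter_cons, List.filter_cons, List.length_cons]
        by_cases h6 : a ∈ x1.zip y1
        · rw [if_pos (decide_eq_true h6), if_neg (by
            rw [decide_eq_true_eq]
            exact fun h7 => h7.1 h6), List.length_cons]
          omega
        · rw [if_neg (by rwa [decide_eq_true_eq])]
          by_cases h7 : a ∈ x2.zip y2
          · rw [if_pos (decide_eq_true ⟨h6, h7⟩), List.length_cons]
            omega
          · rw [if_neg (by
              rw [decide_eq_true_eq]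
              exact fun h8 => h7 h8.2)]
            omega
    exact h5 s
  have hzip : ∀ (x y : List ℕ) (t : List (ℕ × ℕ)), (∀ z ∈ t, z ∈ x.zip y) →
      (∀ a ∈ t.map Prod.fst, a ∈ x) ∧ ∀ a ∈ t.map Prod.snd, a ∈ y := by
    intro x y t ht
    constructor
    · intro a ha
      obtain ⟨z, hz, rfl⟩ := List.mem_map.1 ha
      exact (List.of_mem_zip (a := z.1) (b := z.2) (ht z hz)).1
    · intro a ha
      obtain ⟨z, hz, rfl⟩ := List.mem_map.1 ha
      exact (List.of_mem_zip (a := z.1) (b := z.2) (ht z hz)).2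
  have hX := key x1 x2 (s1.map Prod.fst) (s2.map Prod.fst) hx1 hx2 hex (hzip x1 y1 s1 hs1).1
    (hzip x2 y2 s2 hs2).1 (by rw [List.length_map, List.length_map]; omega)
  have hY := key y1 y2 (s1.map Prod.snd) (s2.map Prod.snd) hy1 hy2 hey (hzip x1 y1 s1 hs1).2
    (hzip x2 y2 s2 hs2).2 (by rw [List.length_map, List.length_map]; omega)
  have h5 := h1 (s1.map Prod.fst) (s2.map Prod.fst) (s1.map Prod.snd) (s2.map Prod.snd)
    (by rw [List.length_map, List.length_map]) (by rw [List.length_map, List.length_map]) hX hY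
    (by
      rw [zip_fs]
      refine hp1.mono fun z hz => ?_
      rcases List.mem_append.1 hz with h6 | h6
      · exact List.mem_append_left _ h6
      · exact List.mem_append_right _ (hs1 z h6))
    (by
      rw [zip_fs]
      refine hp2.mono fun z hz => ?_
      rcases List.mem_append.1 hz with h6 | h6
      · exact List.mem_append_left _ h6
      · exact List.mem_append_right _ (hs2 z h6))
  rw [List.zip_append (by rw [List.length_map, List.length_map]), zip_fs, zip_fs] at h5
  refine h5 s fun z hz => ?_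
  rcases List.mem_append.1 (hs z hz) with h6 | h6
  · exact List.mem_append_left _ h6
  · rw [List.zip_append hl1] at h6
    refine List.mem_append_right _ ?_
    by_cases h7 : z ∈ x1.zip y1
    · exact List.mem_append_left _ (List.mem_filter.2 ⟨hz, decide_eq_true h7⟩)
    · exact List.mem_append_right _ (List.mem_filter.2 ⟨hz, decide_eq_true
        ⟨h7, (List.mem_append.1 h6).resolve_left h7⟩⟩)

end Pool.Agent.CR
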